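import Pool.Agent.W558.S.Base1

set_option autoImplicit false
set_option linter.unusedVariables false
set_option linter.unusedSectionVars false

universe u

open Polynomial Pool.Agent.W558

namespace Pool.Agent.W363.RS

section

variable {k E : Type u} [Field k] [Field E] [Algebra k E]

/-- A good pair of parameters: `z` is a local equation of the curve `W` at the point `O`. -/
structure GP (O W : Subalgebra k E) (z w : E) : Prop where
  zW : NU W z
  wW : ¬ NU W w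
  par : Par O z w

/-- The non-units are closed under addition. -/
def Ad (O : Subalgebra k E) : Prop := ∀ x y, NU O x → NU O y → NU O (x + y)

variable {A O W O' : Subalgebra k E}

lemma Ad.sub (h : Ad O) {x y : E} (hx : NU O x) (hy : NU O y) : NU O (x - y) := by
  rw [sub_eq_add_neg]; exact h _ _ hx hy.neg

/-- `1 - q w` is a unit. -/
lemma Ad.one_sub (h : Ad O) {x : E} (hx : NU O x) : ¬ NU O (1 - x) := by
  intro h1
  have := h _ _ h1 hx
  rw [sub_add_cancel] at this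
  exact not_NU_one this

lemma Ad.unit_add (h : Ad O) {x y : E} (hx : x ∈ O) (hy : NU O y) (hx1 : ¬ NU O x) :
    ¬ NU O (x + y) := by
  intro h1
  have := h.sub h1 hy
  rw [add_sub_cancel_right] at this
  exact hx1 this

/-- The Weierstrass-type dichotomy at a regular point of a curve. -/
theorem dich (hA : Sf A) (hAO : A ≤ O)
    (hfr : ∀ x ∈ O, ∃ a ∈ A, ∃ b ∈ A, b ≠ 0 ∧ b⁻¹ ∈ O ∧ x = a * b⁻¹) (hO : Ad O) {z w : E}
    (h : Par O z w) : ∀ x ∈ O, (∃ a ∈ O, x = a * z) ∨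
      ∃ (n : ℕ) (ε a : E), ε ∈ O ∧ ¬ NU O ε ∧ a ∈ O ∧ x = ε * w ^ n + a * z := by
  have hsm := hA.sm
  have hN : IsNoetherianRing A := Algebra.FiniteType.isNoetherianRing k A
  let I : E → Ideal A := fun b =>
    { carrier := {a | ∃ p ∈ O, ∃ q ∈ O, (a : E) = p * z + q * b}
      add_mem' := by
        rintro a c ⟨p, hp, q, hq, h1⟩ ⟨p', hp', q', hq', h2⟩
        refine ⟨p + p', O.add_mem hp hp', q + q', O.add_mem hq hq', ?_⟩
        push_cast
        rw [h1, h2]; ring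
      zero_mem' := ⟨0, O.zero_mem, 0, O.zero_mem, by simp⟩
      smul_mem' := by
        rintro c a ⟨p, hp, q, hq, h1⟩
        refine ⟨c * p, O.mul_mem (hAO c.2) hp, c * q, O.mul_mem (hAO c.2) hq, ?_⟩
        change (c : E) * a = _
        rw [h1]; ring }
  have hI : ∀ (b : E) (a : A), a ∈ I b ↔ ∃ p ∈ O, ∃ q ∈ O, (a : E) = p * z + q * b :=
    fun b a => Iff.rfl
  have key : ∀ J : Ideal A, ∀ b ∈ O, I b = J → (∃ a ∈ O, b = a * z) ∨
      ∃ (n : ℕ) (ε a : E), ε ∈ O ∧ ¬ NU O ε ∧ a ∈ O ∧ b = ε * w ^ n + a * z := by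
    intro J
    induction J using WellFoundedGT.induction with
    | _ J ih =>
    intro b hb hJ
    by_cases hu : NU O b
    · obtain ⟨a, ha, b', hb', h1⟩ := h.gen b hu
      have hle : I b ≤ I b' := by
        rintro c ⟨p, hp, q, hq, h2⟩
        refine ⟨p + q * a, O.add_mem hp (O.mul_mem hq ha), q * w, O.mul_mem hq h.pv.1, ?_⟩
        rw [h2, h1]; ring
      rcases eq_or_lt_of_le hle with h3 | h3
      · -- the chain stabilizes
        left
        obtain ⟨c, hc, s, hs, hs0, hsi, h4⟩ := hfr b' hb'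
        have h5 : (⟨c, hc⟩ : A) ∈ I b' := by
          refine ⟨0, O.zero_mem, s, hAO hs, ?_⟩
          change c = _
          rw [h4]; field_simp; ring
        rw [← h3] at h5
        obtain ⟨p, hp, q, hq, h6⟩ := h5
        change c = _ at h6
        have h7 : b' * (1 - q * s⁻¹ * w) = (s⁻¹ * p + q * s⁻¹ * a) * z := by
          have h8 : b' = (p * z + q * b) * s⁻¹ := by rw [h4, h6]
          rw [h1] at h8
          linear_combination h8
        have h9 : q * s⁻¹ * w ∈ O := O.mul_mem (O.mul_mem hq hsi) h.pv.1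
        have h10 : ¬ NU O (1 - q * s⁻¹ * w) :=
          hO.one_sub (h.pv.mul_left (O.mul_mem hq hsi))
        rw [not_NU_iff (O.sub_mem O.one_mem h9)] at h10
        obtain ⟨h11, h12⟩ := h10
        refine ⟨a + (s⁻¹ * p + q * s⁻¹ * a) * (1 - q * s⁻¹ * w)⁻¹ * w, ?_, ?_⟩
        · refine O.add_mem ha (O.mul_mem (O.mul_mem ?_ h12) h.pv.1)
          exact O.add_mem (O.mul_mem hsi hp) (O.mul_mem (O.mul_mem hq hsi) ha)
        · have h13 : b' = (s⁻¹ * p + q * s⁻¹ * a) * (1 - q * s⁻¹ * w)⁻¹ * z := by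
            have : b' = b' * (1 - q * s⁻¹ * w) * (1 - q * s⁻¹ * w)⁻¹ := by
              rw [mul_inv_cancel_right₀ h11]
            rw [this, h7]; ring
          rw [h1]
          conv_lhs => rw [h13]
          ring
      · have h4 := ih (I b') (by rw [← hJ]; exact h3) b' hb' rfl
        rcases h4 with ⟨c, hc, h5⟩ | ⟨n, ε, c, hε, hε1, hc, h5⟩
        · left
          refine ⟨a + c * w, O.add_mem ha (O.mul_mem hc h.pv.1), ?_⟩
          rw [h1, h5]; ring
        · right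
          refine ⟨n + 1, ε, a + c * w, hε, hε1, O.add_mem ha (O.mul_mem hc h.pv.1), ?_⟩
          rw [h1, h5]; ring
    · right
      exact ⟨0, b, 0, hb, hu, O.zero_mem, by simp⟩
  intro x hx
  exact key _ x hx rfl

/-- The order of the restriction of `x` to the curve `W` at the point `O` is `n`. -/
def HO (O W : Subalgebra k E) (n : ℕ) (x : E) : Prop :=
  ∃ z w ε r, GP O W z w ∧ ε ∈ O ∧ ¬ NU O ε ∧ r ∈ O ∧ NU W r ∧ x = ε * w ^ n + r

lemma not_NU_of_unit {x : E} (hle : O ≤ W) (hx : x ∈ O) (h : ¬ NU O x) : ¬ NU W x :=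
  fun h1 => h (h1.of_le hle hx)

lemma not_NU_pow {x : E} (hx : x ∈ W) (h : ¬ NU W x) (n : ℕ) : ¬ NU W (x ^ n) :=
  fun h1 => h (NU_pow hx h1)

lemma HO.le_of (hle : O ≤ W) (hO : Ad O) (hW : Ad W) {n m : ℕ} {x : E} (h1 : HO O W n x)
    (h2 : HO O W m x) : m ≤ n := by
  by_contra hlt
  push Not at hlt
  obtain ⟨z1, w1, ε1, r1, g1, hε1, hu1, hr1, hrW1, e1⟩ := h1
  obtain ⟨z2, w2, ε2, r2, g2, hε2, hu2, hr2, hrW2, e2⟩ := h2
  obtain ⟨a, ha, b, hb, e3⟩ := g1.par.gen w2 g2.par.pv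
  have hw1 : w1 ∈ O := g1.par.pv.1
  have hz1 : z1 ∈ O := g1.par.pu.1
  -- `w2 ^ m` is congruent to `(b w1) ^ m`
  obtain ⟨c, hc, e4⟩ : ∃ c ∈ O, w2 ^ m = (b * w1) ^ m + c * z1 := by
    have h5 : (⟨a * z1, O.mul_mem ha hz1⟩ : O) ∣
        (⟨w2, g2.par.pv.1⟩ : O) ^ m - (⟨b * w1, O.mul_mem hb hw1⟩ : O) ^ m := by
      have h6 : (⟨a * z1, O.mul_mem ha hz1⟩ : O) =
          (⟨w2, g2.par.pv.1⟩ : O) - (⟨b * w1, O.mul_mem hb hw1⟩ : O) := by
        apply Subtype.ext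
        change a * z1 = w2 - b * w1
        rw [e3]; ring
      rw [h6]
      exact sub_dvd_pow_sub_pow _ _ _
    obtain ⟨d, hd⟩ := h5
    have h7 := congrArg Subtype.val hd
    change w2 ^ m - (b * w1) ^ m = a * z1 * d at h7
    refine ⟨a * d, O.mul_mem ha d.2, ?_⟩
    linear_combination h7
  obtain ⟨e, rfl⟩ : ∃ e, m = n + (e + 1) := ⟨m - n - 1, by omega⟩
  have h5 : w1 ^ n * (ε1 - ε2 * b ^ (n + (e + 1)) * w1 ^ (e + 1)) = ε2 * c * z1 + r2 - r1 := by
    have h6 : ε1 * w1 ^ n + r1 = ε2 * w2 ^ (n + (e + 1)) + r2 := by rw [← e1, ← e2]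
    rw [e4, mul_pow] at h6
    have h7 : w1 ^ (n + (e + 1)) = w1 ^ n * w1 ^ (e + 1) := pow_add _ _ _
    rw [h7] at h6
    linear_combination h6
  have h6 : NU W (ε2 * c * z1 + r2 - r1) :=
    hW.sub (hW _ _ (g1.zW.mul_left (hle (O.mul_mem hε2 hc))) hrW2) hrW1
  rw [← h5] at h6
  have h7 : ε1 - ε2 * b ^ (n + (e + 1)) * w1 ^ (e + 1) ∈ O :=
    O.sub_mem hε1 (O.mul_mem (O.mul_mem hε2 (O.pow_mem hb _)) (O.pow_mem hw1 _))
  rw [NU_mul_iff (hle (O.pow_mem hw1 n)) (hle h7)] at h6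
  rcases h6 with h6 | h6
  · exact not_NU_pow (hle hw1) g1.wW n h6
  · apply not_NU_of_unit hle h7 ?_ h6
    rw [sub_eq_add_neg]
    refine hO.unit_add hε1 (NU.neg ?_) hu1
    rw [pow_succ, ← mul_assoc]
    exact g1.par.pv.mul_left (O.mul_mem (O.mul_mem hε2 (O.pow_mem hb _)) (O.pow_mem hw1 _))

lemma HO.unique (hle : O ≤ W) (hO : Ad O) (hW : Ad W) {n m : ℕ} {x : E} (h1 : HO O W n x)
    (h2 : HO O W m x) : n = m :=
  le_antisymm (h2.le_of hle hO hW h1) (h1.le_of hle hO hW h2)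

/-- Existence of the order, for a given pair of parameters. -/
lemma exists_form (hA : Sf A) (hPt : IsPt A O) (hle : O ≤ W) {z w : E} (g : GP O W z w) {x : E}
    (hx : x ∈ O) (hxW : ¬ NU W x) :
    ∃ (n : ℕ) (ε a : E), ε ∈ O ∧ ¬ NU O ε ∧ a ∈ O ∧ x = ε * w ^ n + a * z := by
  rcases dich hA hPt.le hPt.frac hPt.loc g.par x hx with ⟨a, ha, h1⟩ | h1
  · exfalso
    apply hxW
    rw [h1]
    exact g.zW.mul_left (hle ha)
  · exact h1

lemma GP.ho (hle : O ≤ W) {z w : E} (g : GP O W z w) {x : E} {n : ℕ} {ε a : E} (hε : ε ∈ O)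
    (hε1 : ¬ NU O ε) (ha : a ∈ O) (e : x = ε * w ^ n + a * z) : HO O W n x :=
  ⟨z, w, ε, a * z, g, hε, hε1, O.mul_mem ha g.par.pu.1, g.zW.mul_left (hle ha), e⟩

/-- Elements which vanish along the curve are divisible by the local equation. -/
lemma dvd_of_NU (hA : Sf A) (hPt : IsPt A O) (hle : O ≤ W) (hW : Ad W) {z w : E}
    (g : GP O W z w) {x : E} (hx : x ∈ O) (hxW : NU W x) : ∃ a ∈ O, x = a * z := by
  rcases dich hA hPt.le hPt.frac hPt.loc g.par x hx with h1 | ⟨n, ε, a, hε, hε1, ha, h1⟩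
  · exact h1
  · exfalso
    have h2 : NU W (ε * w ^ n) := by
      have := hW.sub hxW (g.zW.mul_left (hle ha))
      rwa [h1, add_sub_cancel_right] at this
    rw [NU_mul_iff (hle hε) (hle (O.pow_mem g.par.pv.1 n))] at h2
    rcases h2 with h2 | h2
    · exact not_NU_of_unit hle hε hε1 h2
    · exact not_NU_pow (hle g.par.pv.1) g.wW n h2

lemma HO.mul_unit (hle : O ≤ W) {n : ℕ} {x ρ : E} (h : HO O W n x) (hρ : ρ ∈ O)
    (hρ1 : ¬ NU O ρ) : HO O W n (ρ * x) := by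
  obtain ⟨z, w, ε, r, g, hε, hu, hr, hrW, e⟩ := h
  refine ⟨z, w, ρ * ε, ρ * r, g, O.mul_mem hρ hε, not_NU_mul hρ hε hρ1 hu, O.mul_mem hρ hr,
    hrW.mul_left (hle hρ), ?_⟩
  rw [e]; ring

lemma HO.unit (hle : O ≤ W) (hO : Ad O) {x : E} (h : HO O W 0 x) : ¬ NU O x := by
  obtain ⟨z, w, ε, r, g, hε, hu, hr, hrW, e⟩ := h
  rw [e, pow_zero, mul_one]
  exact hO.unit_add hε (hrW.of_le hle hr) hu

lemma HO.nonunit {n : ℕ} (hle : O ≤ W) (hO : Ad O) {x : E} (h : HO O W (n + 1) x) : NU O x := by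
  obtain ⟨z, w, ε, r, g, hε, hu, hr, hrW, e⟩ := h
  rw [e, pow_succ, ← mul_assoc]
  exact hO _ _ (g.par.pv.mul_left (O.mul_mem hε (O.pow_mem g.par.pv.1 n))) (hrW.of_le hle hr)

/-- Two generators of the maximal ideal are parameters. -/
lemma Par_of_gen {u v p q : E} (h : Par O u v) (hO : Ad O) (hp : NU O p) (hq : NU O q)
    (p0 : p ≠ 0) (q0 : q ≠ 0)
    (hgen : ∀ x, NU O x → ∃ α ∈ O, ∃ β ∈ O, x = α * p + β * q) : Par O p q := by
  obtain ⟨m11, hm11, m12, hm12, e1⟩ := h.gen p hp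
  obtain ⟨m21, hm21, m22, hm22, e2⟩ := h.gen q hq
  obtain ⟨n11, hn11, n12, hn12, e3⟩ := hgen u h.pu
  obtain ⟨n21, hn21, n22, hn22, e4⟩ := hgen v h.pv
  -- linear relations between the parameters have coefficients in the maximal ideal
  have hlin : ∀ α ∈ O, ∀ β ∈ O, α * u + β * v = 0 → NU O α ∧ NU O β := by
    intro α hα β hβ h1
    obtain ⟨d, hd, h2⟩ := h.reg α hα (-β) (O.neg_mem hβ) (by linear_combination h1)
    have h3 : u * α = u * (v * d) := by
      have h4 : u * α = v * (-β) := by linear_combination h1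
      rw [h4, h2]; ring
    have h4 : α = v * d := mul_left_cancel₀ h.u0 h3
    refine ⟨by rw [h4]; exact h.pv.mul_right hd, ?_⟩
    have h5 : β = -(u * d) := by rw [← h2]; ring
    rw [h5]
    exact (h.pu.mul_right hd).neg
  obtain ⟨a1, a2⟩ := hlin (n11 * m11 + n12 * m21 - 1)
    (O.sub_mem (O.add_mem (O.mul_mem hn11 hm11) (O.mul_mem hn12 hm21)) O.one_mem)
    (n11 * m12 + n12 * m22) (O.add_mem (O.mul_mem hn11 hm12) (O.mul_mem hn12 hm22))
    (by rw [e1, e2] at e3; linear_combination -e3)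
  obtain ⟨a3, a4⟩ := hlin (n21 * m11 + n22 * m21)
    (O.add_mem (O.mul_mem hn21 hm11) (O.mul_mem hn22 hm21))
    (n21 * m12 + n22 * m22 - 1)
    (O.sub_mem (O.add_mem (O.mul_mem hn21 hm12) (O.mul_mem hn22 hm22)) O.one_mem)
    (by rw [e1, e2] at e4; linear_combination -e4)
  have hD : m11 * m22 - m12 * m21 ∈ O :=
    O.sub_mem (O.mul_mem hm11 hm22) (O.mul_mem hm12 hm21)
  have hD' : n11 * n22 - n12 * n21 ∈ O :=
    O.sub_mem (O.mul_mem hn11 hn22) (O.mul_mem hn12 hn21)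
  have hunit : ¬ NU O (m11 * m22 - m12 * m21) := by
    intro h1
    have h2 : NU O ((m11 * m22 - m12 * m21) * (n11 * n22 - n12 * n21)) := h1.mul_right hD'
    have h3 : NU O ((n11 * m11 + n12 * m21 - 1) * (n21 * m12 + n22 * m22 - 1) +
        (n11 * m11 + n12 * m21 - 1) + (n21 * m12 + n22 * m22 - 1) -
        (n11 * m12 + n12 * m22) * (n21 * m11 + n22 * m21)) :=
      hO.sub (hO _ _ (hO _ _ (a1.mul_right a4.1) a1) a4) (a2.mul_right a3.1)
    have h4 := hO.sub h2 h3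
    have h5 : (m11 * m22 - m12 * m21) * (n11 * n22 - n12 * n21) -
        ((n11 * m11 + n12 * m21 - 1) * (n21 * m12 + n22 * m22 - 1) +
        (n11 * m11 + n12 * m21 - 1) + (n21 * m12 + n22 * m22 - 1) -
        (n11 * m12 + n12 * m22) * (n21 * m11 + n22 * m21)) = 1 := by ring
    rw [h5] at h4
    exact not_NU_one h4
  rw [not_NU_iff hD] at hunit
  obtain ⟨hD0, hDi⟩ := hunit
  refine ⟨hp, hq, p0, q0, hgen, ?_⟩
  intro b hb c hc h1
  obtain ⟨d, hd, h2⟩ := h.reg (m11 * b - m21 * c)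
    (O.sub_mem (O.mul_mem hm11 hb) (O.mul_mem hm21 hc)) (m22 * c - m12 * b)
    (O.sub_mem (O.mul_mem hm22 hc) (O.mul_mem hm12 hb)) (by
      rw [e1, e2] at h1; linear_combination h1)
  have h3 : m11 * b - m21 * c = v * d := by
    have h4 : u * (m11 * b - m21 * c) = u * (v * d) := by
      have h5 : u * (m11 * b - m21 * c) = v * (m22 * c - m12 * b) := by
        rw [e1, e2] at h1; linear_combination h1
      rw [h5, h2]; ring
    exact mul_left_cancel₀ h.u0 h4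
  refine ⟨d * (m11 * m22 - m12 * m21)⁻¹, O.mul_mem hd hDi, ?_⟩
  have h4 : (m11 * m22 - m12 * m21) * c = p * d := by
    rw [e1]
    linear_combination m12 * h3 + m11 * h2
  have h5 : c = (m11 * m22 - m12 * m21) * c * (m11 * m22 - m12 * m21)⁻¹ := by
    field_simp
  rw [h5, h4]; ring

end

end Pool.Agent.W363.RS
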